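import Mathlib

/-!
# Lower central quotients of free type are induced by a homomorphism

If `Γ / C^j Γ ≅ F / C^j F` for all `j` (for a fixed free group `F` of any rank), then any
homomorphism `F → Γ` lifting the isomorphism of abelianizations induces isomorphisms on all
lower central quotients.
-/

namespace Pool.Agent.Results.MP_b9ac25_al.FreeTypeInduced

universe u v

open scoped commutatorElement

/-- The lower central series, indexed so that `lcs G n` is `C^{n+1} G` of the problem: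
`lcs G 0 = G` and `lcs G (n+1) = [lcs G n, G]`. -/
def lcs (G : Type*) [Group G] (n : ℕ) : Subgroup G := (⊤ : Subgroup G).lowerCentralSeries n

instance (G : Type*) [Group G] (n : ℕ) : (lcs G n).Normal := by
  unfold lcs; infer_instance

variable {G H : Type*} [Group G] [Group H]

lemma map_lcs_le (f : G →* H) (n : ℕ) : (lcs G n).map f ≤ lcs H n := by
  unfold lcs
  rw [Subgroup.map_lowerCentralSeries]
  induction n with
  | zero => exact le_top
  | succ n ih =>
    rw [Subgroup.lowerCentralSeries_succ, Subgroup.lowerCentralSeries_succ]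
    exact Subgroup.commutator_mono ih le_top

lemma map_mem_lcs (f : G →* H) (n : ℕ) {x : G} (hx : x ∈ lcs G n) : f x ∈ lcs H n :=
  map_lcs_le f n ⟨x, hx, rfl⟩

lemma lcs_le_comap (f : G →* H) (n : ℕ) : lcs G n ≤ (lcs H n).comap f :=
  fun _ hx => map_mem_lcs f n hx

/-- The homomorphism `G / C^{n+1} G → H / C^{n+1} H` induced by `f : G → H`. -/
def induced (f : G →* H) (n : ℕ) : G ⧸ lcs G n →* H ⧸ lcs H n :=
  QuotientGroup.map (lcs G n) (lcs H n) f (lcs_le_comap f n)

/-- Property (P1): there is a free group `F` with `Γ / C^j Γ ≅ F / C^j F` for every `j ≥ 1`. -/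
def P1 (Γ : Type u) [Group Γ] : Prop :=
  ∃ X : Type v, ∀ n : ℕ,
    Nonempty (Γ ⧸ lcs Γ n ≃* FreeGroup X ⧸ lcs (FreeGroup X) n)

/-- Property (P2): there are a free group `F` and a homomorphism `F → Γ` inducing isomorphisms
`F / C^j F → Γ / C^j Γ` for every `j ≥ 1`. -/
def P2 (Γ : Type u) [Group Γ] : Prop :=
  ∃ (X : Type v) (φ : FreeGroup X →* Γ), ∀ n : ℕ, Function.Bijective (induced φ n)

lemma lcs_zero (G : Type*) [Group G] : lcs G 0 = ⊤ := rfl

lemma lcs_succ (G : Type*) [Group G] (n : ℕ) : lcs G (n + 1) = ⁅lcs G n, (⊤ : Subgroup G)⁆ := rfl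

lemma lcs_anti (G : Type*) [Group G] {m n : ℕ} (h : m ≤ n) : lcs G n ≤ lcs G m :=
  Subgroup.lowerCentralSeries_antitone _ h

lemma comm_mem {n : ℕ} {c g : G} (hc : c ∈ lcs G n) : c * g * c⁻¹ * g⁻¹ ∈ lcs G (n + 1) := by
  rw [lcs_succ]
  exact Subgroup.commutator_mem_commutator hc (Subgroup.mem_top g)

/-- Elements of `lcs n` are central modulo `lcs (n+1)`. -/
lemma mk_comm {n : ℕ} {c : G} (hc : c ∈ lcs G n) (g : G) :
    (QuotientGroup.mk' (lcs G (n + 1)) c) * (QuotientGroup.mk' (lcs G (n + 1)) g) =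
      (QuotientGroup.mk' (lcs G (n + 1)) g) * (QuotientGroup.mk' (lcs G (n + 1)) c) := by
  have h := (QuotientGroup.eq_one_iff (N := lcs G (n + 1)) _).mpr (comm_mem (g := g) hc)
  have h' : (QuotientGroup.mk' (lcs G (n + 1))) (c * g * c⁻¹ * g⁻¹) = 1 := h
  rw [map_mul, map_mul, map_mul, map_inv, map_inv] at h'
  rw [mul_inv_eq_one, mul_inv_eq_iff_eq_mul] at h'
  exact h'

/-- `[lcs n, lcs 1] ≤ lcs (n+2)`. -/
lemma comm_mem_two {n : ℕ} {c g : G} (hc : c ∈ lcs G n) (hg : g ∈ lcs G 1) :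
    c * g * c⁻¹ * g⁻¹ ∈ lcs G (n + 2) := by
  set q := QuotientGroup.mk' (lcs G (n + 2)) with hq
  -- the set of `g` commuting with `c` modulo `lcs (n+2)`
  have hcomm : ∀ x : G, ∀ y : G, q (c * x * c⁻¹ * x⁻¹) * q y = q y * q (c * x * c⁻¹ * x⁻¹) :=
    fun x y => mk_comm (comm_mem hc) y
  let h : G →* G ⧸ lcs G (n + 2) :=
    { toFun := fun x => q (c * x * c⁻¹ * x⁻¹)
      map_one' := by simp
      map_mul' := by
        intro x y
        have e : c * (x * y) * c⁻¹ * (x * y)⁻¹ =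
            (c * x * c⁻¹ * x⁻¹) * (x * (c * y * c⁻¹ * y⁻¹) * x⁻¹) := by group
        have e' : q (x * (c * y * c⁻¹ * y⁻¹) * x⁻¹) = q (c * y * c⁻¹ * y⁻¹) := by
          rw [map_mul q (x * (c * y * c⁻¹ * y⁻¹)) x⁻¹, map_mul q x, ← hcomm y x, mul_assoc,
            ← map_mul q x, mul_inv_cancel, map_one, mul_one]
        rw [e, map_mul q (c * x * c⁻¹ * x⁻¹), e'] }
  have hker : lcs G 1 ≤ h.ker := by
    rw [lcs_succ, lcs_zero, Subgroup.commutator_le]
    intro x _ y _
    rw [MonoidHom.mem_ker, map_commutatorElement, commutatorElement_eq_one_iff_mul_comm]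
    exact hcomm x (c * y * c⁻¹ * y⁻¹)
  exact (QuotientGroup.eq_one_iff (N := lcs G (n + 2)) _).mp (hker hg)

/-- An endomorphism which is the identity modulo `lcs 1` is the identity on `lcs i`
modulo `lcs (i+1)`. -/
lemma near_id (χ : G →* G) (hχ : ∀ a, χ a * a⁻¹ ∈ lcs G 1) (i : ℕ) :
    ∀ a ∈ lcs G i, χ a * a⁻¹ ∈ lcs G (i + 1) := by
  induction i with
  | zero => intro a _; exact hχ a
  | succ i ih =>
    intro a ha
    rw [lcs_succ, Subgroup.commutator_def] at ha
    refine Subgroup.closure_induction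
      (p := fun a _ => χ a * a⁻¹ ∈ lcs G (i + 1 + 1)) ?_ ?_ ?_ ?_ ha
    · rintro _ ⟨c, hc, g, -, rfl⟩
      set q := QuotientGroup.mk' (lcs G (i + 2)) with hq
      -- work modulo `lcs (i+2)`
      suffices hs : q (χ ⁅c, g⁆) = q ⁅c, g⁆ by
        have := (QuotientGroup.eq_one_iff (N := lcs G (i + 2)) (χ ⁅c, g⁆ * ⁅c, g⁆⁻¹)).mp
          (by
            change q (χ ⁅c, g⁆ * ⁅c, g⁆⁻¹) = 1
            rw [map_mul, map_inv, hs, mul_inv_cancel])
        exact this
      have hc' : χ c * c⁻¹ ∈ lcs G (i + 1) := ih c hc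
      have hg' : χ g * g⁻¹ ∈ lcs G 1 := hχ g
      have e1 : χ c = (χ c * c⁻¹) * c := by group
      have e2 : χ g = (χ g * g⁻¹) * g := by group
      generalize χ c * c⁻¹ = c' at hc' e1
      generalize χ g * g⁻¹ = g' at hg' e2
      have hcen : ∀ y, q c' * q y = q y * q c' := fun y => mk_comm hc' y
      have h1 : q (c * g' * c⁻¹ * g'⁻¹) = 1 :=
        (QuotientGroup.eq_one_iff (N := lcs G (i + 2)) _).mpr (comm_mem_two hc hg')
      have h2 : ∀ y, q (c * g * c⁻¹ * g⁻¹) * q y = q y * q (c * g * c⁻¹ * g⁻¹) :=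
        fun y => mk_comm (comm_mem hc) y
      rw [map_commutatorElement, e1, e2, commutatorElement_def, commutatorElement_def]
      have h3 : c' * c * (g' * g) * (c' * c)⁻¹ * (g' * g)⁻¹ =
          c' * ((c * g' * c⁻¹ * g'⁻¹) * (g' * (c * g * c⁻¹ * g⁻¹) * g'⁻¹)) *
            (g' * g) * c'⁻¹ * (g' * g)⁻¹ := by group
      have h4 : q (g' * (c * g * c⁻¹ * g⁻¹) * g'⁻¹) = q (c * g * c⁻¹ * g⁻¹) := by
        rw [map_mul q (g' * (c * g * c⁻¹ * g⁻¹)) g'⁻¹, map_mul q g', ← h2, mul_assoc,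
          ← map_mul q g', mul_inv_cancel, map_one, mul_one]
      have h5 : q ((c * g' * c⁻¹ * g'⁻¹) * (g' * (c * g * c⁻¹ * g⁻¹) * g'⁻¹)) =
          q (c * g * c⁻¹ * g⁻¹) := by
        rw [map_mul q (c * g' * c⁻¹ * g'⁻¹), h1, one_mul, h4]
      have h6 : q (c' * ((c * g' * c⁻¹ * g'⁻¹) * (g' * (c * g * c⁻¹ * g⁻¹) * g'⁻¹)) *
            (g' * g) * c'⁻¹ * (g' * g)⁻¹) =
            q c' * q (c * g * c⁻¹ * g⁻¹) * q (g' * g) * (q c')⁻¹ * (q (g' * g))⁻¹ := by
        rw [← h5]
        simp only [map_mul, map_inv]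
      rw [h3, h6, hcen, mul_assoc (q _) (q c') (q (g' * g)), hcen (g' * g)]
      group
    · simp
    · intro x y _ _ hx hy
      have e : χ (x * y) * (x * y)⁻¹ = (χ x * (χ y * y⁻¹) * (χ x)⁻¹) * (χ x * x⁻¹) := by
        rw [map_mul]; group
      rw [e]
      exact mul_mem ((inferInstance : (lcs G (i + 1 + 1)).Normal).conj_mem _ hy _) hx
    · intro x _ hx
      have e : χ x⁻¹ * x⁻¹⁻¹ = (χ x)⁻¹ * (χ x * x⁻¹)⁻¹ * (χ x)⁻¹⁻¹ := by
        rw [map_inv]; group
      rw [e]
      exact (inferInstance : (lcs G (i + 1 + 1)).Normal).conj_mem _ (inv_mem hx) _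

/-- In a nilpotent group an endomorphism which is the identity modulo `lcs 1` is bijective. -/
lemma bij_of_near_id {c : ℕ} (hG : lcs G c = ⊥) (χ : G →* G) (hχ : ∀ a, χ a * a⁻¹ ∈ lcs G 1) :
    Function.Bijective χ := by
  constructor
  · rw [injective_iff_map_eq_one]
    intro a ha
    have h : ∀ i, a ∈ lcs G i := by
      intro i
      induction i with
      | zero => exact Subgroup.mem_top a
      | succ i ih =>
        have := near_id χ hχ i a ih
        rw [ha, one_mul] at this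
        exact inv_mem_iff.mp this
    have := h c
    rwa [hG, Subgroup.mem_bot] at this
  · have h : ∀ k, k ≤ c → lcs G (c - k) ≤ χ.range := by
      intro k
      induction k with
      | zero => intro _; rw [Nat.sub_zero, hG]; exact bot_le
      | succ k ih =>
        intro hk a ha
        have h1 := near_id χ hχ _ a ha
        have h2 : c - (k + 1) + 1 = c - k := by omega
        rw [h2] at h1
        obtain ⟨b, hb⟩ := ih (by omega) h1
        refine ⟨b⁻¹ * a, ?_⟩
        rw [map_mul, map_inv, hb]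
        group
    intro a
    have := h c le_rfl
    rw [Nat.sub_self] at this
    exact this (Subgroup.mem_top a)

/-- An endomorphism of a relatively free nilpotent group inducing an isomorphism modulo
`lcs 1` is an isomorphism. -/
lemma bij_of_ab {X : Type v} (ι : X → G) {c : ℕ} (hG : lcs G c = ⊥)
    (hgen : Subgroup.closure (Set.range ι) = ⊤)
    (hfree : ∀ f : X → G, ∃ ψ : G →* G, ∀ x, ψ (ι x) = f x)
    (θ : G →* G) (hs : ∀ a, ∃ b, θ b * a⁻¹ ∈ lcs G 1) (hi : ∀ a, θ a ∈ lcs G 1 → a ∈ lcs G 1) :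
    Function.Bijective θ := by
  choose f hf using hs
  obtain ⟨ψ, hψ⟩ := hfree fun x => f (ι x)
  have h1 : ∀ a, θ (ψ a) * a⁻¹ ∈ lcs G 1 := by
    intro a
    have ha : a ∈ Subgroup.closure (Set.range ι) := by rw [hgen]; trivial
    refine Subgroup.closure_induction (p := fun a _ => θ (ψ a) * a⁻¹ ∈ lcs G 1) ?_ ?_ ?_ ?_ ha
    · rintro _ ⟨x, rfl⟩
      rw [hψ]; exact hf _
    · simp
    · intro x y _ _ hx hy
      have e : θ (ψ (x * y)) * (x * y)⁻¹ =
          (θ (ψ x) * (θ (ψ y) * y⁻¹) * (θ (ψ x))⁻¹) * (θ (ψ x) * x⁻¹) := by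
        rw [map_mul, map_mul]; group
      rw [e]
      exact mul_mem ((inferInstance : (lcs G 1).Normal).conj_mem _ hy _) hx
    · intro x _ hx
      have e : θ (ψ x⁻¹) * x⁻¹⁻¹ = (θ (ψ x))⁻¹ * (θ (ψ x) * x⁻¹)⁻¹ * (θ (ψ x))⁻¹⁻¹ := by
        rw [map_inv, map_inv]; group
      rw [e]
      exact (inferInstance : (lcs G 1).Normal).conj_mem _ (inv_mem hx) _
  have h2 : ∀ a, ψ (θ a) * a⁻¹ ∈ lcs G 1 := by
    intro a
    apply hi
    have := h1 (θ a)
    rwa [map_mul, map_inv]
  have b1 : Function.Bijective (θ.comp ψ) := bij_of_near_id hG _ h1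
  have b2 : Function.Bijective (ψ.comp θ) := bij_of_near_id hG _ h2
  constructor
  · intro x y h
    apply b2.1
    simp [h]
  · intro y
    obtain ⟨x, hx⟩ := b1.2 y
    exact ⟨ψ x, hx⟩

lemma lcs_quot (G : Type*) [Group G] (n : ℕ) : lcs (G ⧸ lcs G n) n = ⊥ := by
  have h : (lcs G n).map (QuotientGroup.mk' (lcs G n)) = lcs (G ⧸ lcs G n) n := by
    unfold lcs
    rw [Subgroup.map_lowerCentralSeries]
    congr 1
    exact Subgroup.map_top_of_surjective _ (QuotientGroup.mk'_surjective _)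
  rw [← h, eq_bot_iff]
  rintro _ ⟨x, hx, rfl⟩
  exact (QuotientGroup.eq_one_iff x).mpr hx

lemma mem_of_mk_mem {n : ℕ} (hn : 1 ≤ n) {x : G}
    (hx : QuotientGroup.mk' (lcs G n) x ∈ lcs (G ⧸ lcs G n) 1) : x ∈ lcs G 1 := by
  let r : G ⧸ lcs G n →* G ⧸ lcs G 1 :=
    QuotientGroup.map _ _ (MonoidHom.id G) (lcs_anti G hn)
  have h1 : r (QuotientGroup.mk' (lcs G n) x) ∈ lcs (G ⧸ lcs G 1) 1 := map_mem_lcs r 1 hx
  rw [lcs_quot, Subgroup.mem_bot] at h1
  exact (QuotientGroup.eq_one_iff x).mp h1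

/-- **(P1) implies (P2)** for every group (free groups of arbitrary rank). -/
theorem result (Γ : Type u) [Group Γ] (h : P1.{u, v} Γ) : P2.{u, v} Γ := by
  obtain ⟨X, hX⟩ := h
  let e : ∀ n, Γ ⧸ lcs Γ n ≃* FreeGroup X ⧸ lcs (FreeGroup X) n := fun n => (hX n).some
  -- lift the inverse of the isomorphism of abelianizations
  have hlift : ∀ x : X, ∃ g : Γ, QuotientGroup.mk' (lcs Γ 1) g =
      (e 1).symm (QuotientGroup.mk' (lcs (FreeGroup X) 1) (FreeGroup.of x)) :=
    fun x => QuotientGroup.mk'_surjective _ _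
  choose g hg using hlift
  let φ : FreeGroup X →* Γ := FreeGroup.lift g
  have h1 : ∀ w : FreeGroup X, QuotientGroup.mk' (lcs Γ 1) (φ w) =
      (e 1).symm (QuotientGroup.mk' (lcs (FreeGroup X) 1) w) := by
    intro w
    have : (QuotientGroup.mk' (lcs Γ 1)).comp φ =
        (e 1).symm.toMonoidHom.comp (QuotientGroup.mk' (lcs (FreeGroup X) 1)) := by
      ext x
      simpa [φ] using hg x
    exact DFunLike.congr_fun this w
  refine ⟨X, φ, fun n => ?_⟩
  rcases Nat.eq_zero_or_pos n with rfl | hn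
  · have hs1 : Subsingleton (FreeGroup X ⧸ lcs (FreeGroup X) 0) :=
      QuotientGroup.subsingleton_quotient_top
    have hs2 : Subsingleton (Γ ⧸ lcs Γ 0) := QuotientGroup.subsingleton_quotient_top
    exact ⟨fun a b _ => Subsingleton.elim a b, fun b => ⟨1, Subsingleton.elim _ b⟩⟩
  · let A := FreeGroup X ⧸ lcs (FreeGroup X) n
    let θ : A →* A := (e n).toMonoidHom.comp (induced φ n)
    have hθ : ∀ w : FreeGroup X, θ (QuotientGroup.mk' _ w) =
        e n (QuotientGroup.mk' (lcs Γ n) (φ w)) := fun w => rfl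
    have hbij : Function.Bijective θ := by
      refine bij_of_ab (fun x : X => (QuotientGroup.mk' (lcs (FreeGroup X) n) (FreeGroup.of x)))
        (lcs_quot _ n) ?_ ?_ θ ?_ ?_
      · have : Set.range (fun x : X => (QuotientGroup.mk' (lcs (FreeGroup X) n)
            (FreeGroup.of x))) = (QuotientGroup.mk' (lcs (FreeGroup X) n)) ''
              Set.range FreeGroup.of := by
          rw [← Set.range_comp]; rfl
        rw [this, ← MonoidHom.map_closure, FreeGroup.closure_range_of]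
        exact Subgroup.map_top_of_surjective _ (QuotientGroup.mk'_surjective _)
      · intro f
        let ψ0 : FreeGroup X →* A := FreeGroup.lift f
        have hker : lcs (FreeGroup X) n ≤ ψ0.ker := by
          intro w hw
          have := map_mem_lcs ψ0 n hw
          rwa [lcs_quot, Subgroup.mem_bot] at this
        refine ⟨QuotientGroup.lift _ ψ0 hker, fun x => ?_⟩
        change QuotientGroup.lift _ ψ0 hker (QuotientGroup.mk (FreeGroup.of x)) = f x
        rw [QuotientGroup.lift_mk]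
        simp [ψ0]
      · intro a
        obtain ⟨y, hy⟩ := QuotientGroup.mk'_surjective (lcs Γ n) ((e n).symm a)
        obtain ⟨w, hw⟩ := QuotientGroup.mk'_surjective (lcs (FreeGroup X) 1)
          (e 1 (QuotientGroup.mk' (lcs Γ 1) y))
        have h2 : QuotientGroup.mk' (lcs Γ 1) (φ w) = QuotientGroup.mk' (lcs Γ 1) y := by
          rw [h1, hw, MulEquiv.symm_apply_apply]
        have h3 : φ w * y⁻¹ ∈ lcs Γ 1 := by
          apply (QuotientGroup.eq_one_iff (N := lcs Γ 1) _).mp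
          change QuotientGroup.mk' (lcs Γ 1) (φ w * y⁻¹) = 1
          rw [map_mul, map_inv, h2, mul_inv_cancel]
        refine ⟨QuotientGroup.mk' _ w, ?_⟩
        have h4 : a = e n (QuotientGroup.mk' (lcs Γ n) y) := by
          rw [hy, MulEquiv.apply_symm_apply]
        rw [hθ, h4, ← map_inv, ← map_mul, ← map_inv, ← map_mul]
        exact map_mem_lcs ((e n).toMonoidHom.comp (QuotientGroup.mk' (lcs Γ n))) 1 h3
      · intro a ha
        obtain ⟨w, rfl⟩ := QuotientGroup.mk'_surjective _ a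
        rw [hθ] at ha
        have h2 : QuotientGroup.mk' (lcs Γ n) (φ w) ∈ lcs (Γ ⧸ lcs Γ n) 1 := by
          have := map_mem_lcs (e n).symm.toMonoidHom 1 ha
          simpa using this
        have h3 : φ w ∈ lcs Γ 1 := mem_of_mk_mem hn h2
        have h4 : QuotientGroup.mk' (lcs Γ 1) (φ w) = 1 := (QuotientGroup.eq_one_iff _).mpr h3
        rw [h1] at h4
        have h5 : QuotientGroup.mk' (lcs (FreeGroup X) 1) w = 1 := by
          have := congrArg (e 1) h4
          rwa [MulEquiv.apply_symm_apply, map_one] at this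
        have h6 : w ∈ lcs (FreeGroup X) 1 := (QuotientGroup.eq_one_iff _).mp h5
        exact map_mem_lcs (QuotientGroup.mk' (lcs (FreeGroup X) n)) 1 h6
    have hcomp : (induced φ n : FreeGroup X ⧸ lcs (FreeGroup X) n → Γ ⧸ lcs Γ n) =
        (e n).symm ∘ θ := by
      funext a
      simp [θ]
    rw [hcomp]
    exact (e n).symm.bijective.comp hbij

end Pool.Agent.Results.MP_b9ac25_al.FreeTypeInduced
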